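import Pool.Agent.H71.WE.All

/-!
# Demand graphs all of whose components have an even number of edges
-/

set_option autoImplicit false

namespace Pool.Agent.H71.WF

open Finset Pool.Agent.H71.WE

/-- two paths from one vertex, without conditions on the ends -/
theorem ot' {V E : Type} [Fintype V] [DecidableEq V] [DecidableEq E]
    (G : Gr V E) (A : Finset E) (r : ℕ) (x a b : V) (hr : Even r) (h : Ec G A (r + 2)) :
    ∃ P1 P2 : Finset E, P1 ⊆ A ∧ P2 ⊆ A ∧ Disjoint P1 P2 ∧ Co G P1 x a ∧ Co G P2 x b ∧
      Ec G (A \ (P1 ∪ P2)) r := by
  have hmono : ∀ {B C : Finset E} {c d : ℕ}, B ⊆ C → c ≤ d → Ec G B d → Ec G C c :=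
    fun hBC hcd hB X hX hX' => hcd.trans ((hB X hX hX').trans (cn_mono G hBC X))
  by_cases ha : a = x
  · by_cases hb : b = x
    · subst ha; subst hb
      refine ⟨∅, ∅, empty_subset _, empty_subset _, disjoint_empty_left _, co_refl G _ _,
        co_refl G _ _, ?_⟩
      simp only [union_empty, sdiff_empty]
      exact hmono (Subset.refl _) (by omega) h
    · subst ha
      obtain ⟨P1, P2, h1, h2, h3, h4, h5, h6⟩ := All.ot V E G A r a b b hr h hb hb
      refine ⟨∅, P2, empty_subset _, h2, disjoint_empty_left _, co_refl G _ _, h5, ?_⟩
      refine hmono (sdiff_subset_sdiff (Subset.refl _) ?_) le_rfl h6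
      rw [empty_union]
      exact subset_union_right
  · by_cases hb : b = x
    · subst hb
      obtain ⟨P1, P2, h1, h2, h3, h4, h5, h6⟩ := All.ot V E G A r b a a hr h ha ha
      refine ⟨P1, ∅, h1, empty_subset _, disjoint_empty_right _, h4, co_refl G _ _, ?_⟩
      refine hmono (sdiff_subset_sdiff (Subset.refl _) ?_) le_rfl h6
      rw [union_empty]
      exact subset_union_left
    · exact All.ot V E G A r x a b hr h ha hb

/-- demands grouped at common ends with even multiplicities -/
theorem ec_aux {V E I : Type} [Fintype V] [DecidableEq V] [DecidableEq E] [DecidableEq I]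
    (G : Gr V E) (c o : I → V) : ∀ (k : ℕ) (A : Finset E) (J : Finset I), J.card ≤ 2 * k →
    Ec G A (2 * k) → (∀ v, Even (J.filter (fun i => c i = v)).card) →
    ∃ F : I → Finset E, (∀ i ∈ J, F i ⊆ A) ∧
      (∀ i ∈ J, ∀ j ∈ J, i ≠ j → Disjoint (F i) (F j)) ∧ ∀ i ∈ J, Co G (F i) (c i) (o i) := by
  intro k
  induction k with
  | zero =>
    intro A J hJ _ _
    have : J = ∅ := card_eq_zero.1 (by omega)
    subst this
    exact ⟨fun _ => ∅, by simp, by simp, by simp⟩
  | succ k ih =>
    intro A J hJ hA hev
    rcases J.eq_empty_or_nonempty with rfl | ⟨i, hi⟩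
    · exact ⟨fun _ => ∅, by simp, by simp, by simp⟩
    · have hfi : i ∈ J.filter (fun j => c j = c i) := mem_filter.2 ⟨hi, rfl⟩
      have h2 : 1 < (J.filter (fun j => c j = c i)).card := by
        have h0 : 0 < (J.filter (fun j => c j = c i)).card := card_pos.2 ⟨i, hfi⟩
        obtain ⟨m, hm⟩ := hev (c i)
        omega
      obtain ⟨j, hj, hji⟩ := exists_mem_ne h2 i
      rw [mem_filter] at hj
      obtain ⟨P1, P2, h1, h2', h3, h4, h5, h6⟩ := ot' G A (2 * k) (c i) (o i) (o j)
        (even_two_mul k) hA
      set J' := (J.erase i).erase j with hJ'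
      have hjJ : j ∈ J.erase i := mem_erase.2 ⟨hji, hj.1⟩
      have hcard : J'.card + 2 = J.card := by
        have e1 : J'.card = (J.erase i).card - 1 := card_erase_of_mem hjJ
        have e2 : (J.erase i).card = J.card - 1 := card_erase_of_mem hi
        have e3 : 0 < (J.erase i).card := card_pos.2 ⟨j, hjJ⟩
        omega
      have hev' : ∀ v, Even (J'.filter (fun t => c t = v)).card := by
        intro v
        by_cases hv : v = c i
        · subst hv
          have hh : (J'.filter (fun t => c t = c i)).card + 2
              = (J.filter (fun t => c t = c i)).card := by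
            have e0 : J'.filter (fun t => c t = c i)
                = ((J.filter (fun t => c t = c i)).erase i).erase j := by
              ext t
              simp only [hJ', mem_filter, mem_erase]
              tauto
            have hj2 : j ∈ (J.filter (fun t => c t = c i)).erase i :=
              mem_erase.2 ⟨hji, mem_filter.2 ⟨hj.1, hj.2⟩⟩
            rw [e0, card_erase_of_mem hj2, card_erase_of_mem hfi]
            have e3 : 0 < ((J.filter (fun t => c t = c i)).erase i).card := card_pos.2 ⟨j, hj2⟩
            rw [card_erase_of_mem hfi] at e3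
            omega
          obtain ⟨m, hm⟩ := hev (c i)
          exact ⟨m - 1, by omega⟩
        · have e0 : J'.filter (fun t => c t = v) = J.filter (fun t => c t = v) := by
            ext t
            simp only [hJ', mem_filter, mem_erase]
            constructor
            · rintro ⟨⟨_, _, h⟩, h'⟩
              exact ⟨h, h'⟩
            · rintro ⟨h, h'⟩
              refine ⟨⟨?_, ?_, h⟩, h'⟩
              · rintro rfl
                exact hv (h'.symm.trans hj.2)
              · rintro rfl
                exact hv h'.symm
          rw [e0]
          exact hev v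
      obtain ⟨F, hF1, hF2, hF3⟩ := ih (A \ (P1 ∪ P2)) J' (by omega) h6 hev'
      refine ⟨fun t => if t = i then P1 else if t = j then P2 else F t, ?_, ?_, ?_⟩
      · intro t ht
        by_cases hti : t = i
        · simp only [hti, if_true]; exact h1
        · by_cases htj : t = j
          · simp only [htj, if_neg hji, if_true]; exact h2'
          · simp only [if_neg hti, if_neg htj]
            exact (hF1 t (mem_erase.2 ⟨htj, mem_erase.2 ⟨hti, ht⟩⟩)).trans sdiff_subset
      · have hd : ∀ t ∈ J, t ≠ i → t ≠ j → Disjoint (F t) (P1 ∪ P2) := by
          intro t ht hti htj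
          exact disjoint_of_subset_left (hF1 t (mem_erase.2 ⟨htj, mem_erase.2 ⟨hti, ht⟩⟩))
            sdiff_disjoint
        intro t ht t' ht' htt
        by_cases hti : t = i
        · by_cases htj' : t' = j
          · subst hti; subst htj'
            simp only [if_neg hji, if_true]
            exact h3
          · have hti' : t' ≠ i := fun h => htt (hti.trans h.symm)
            simp only [hti, if_true, if_neg hti', if_neg htj']
            exact ((disjoint_union_right.1 (hd t' ht' hti' htj')).1).symm
        · by_cases htj : t = j
          · by_cases hti' : t' = i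
            · subst htj; subst hti'
              simp only [if_neg hji, if_true]
              exact h3.symm
            · have htj' : t' ≠ j := fun h => htt (htj.trans h.symm)
              simp only [htj, if_neg hji, if_true, if_neg hti', if_neg htj']
              exact ((disjoint_union_right.1 (hd t' ht' hti' htj')).2).symm
          · simp only [if_neg hti, if_neg htj]
            by_cases hti' : t' = i
            · simp only [hti', if_true]
              exact (disjoint_union_right.1 (hd t ht hti htj)).1
            · by_cases htj' : t' = j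
              · simp only [htj', if_neg hji, if_true]
                exact (disjoint_union_right.1 (hd t ht hti htj)).2
              · simp only [if_neg hti', if_neg htj']
                exact hF2 t (mem_erase.2 ⟨htj, mem_erase.2 ⟨hti, ht⟩⟩) t'
                  (mem_erase.2 ⟨htj', mem_erase.2 ⟨hti', ht'⟩⟩) htt
      · intro t ht
        by_cases hti : t = i
        · subst hti
          simp only [if_true]
          exact h4
        · by_cases htj : t = j
          · subst htj
            simp only [if_neg hji, if_true]
            rw [hj.2]
            exact h5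
          · simp only [if_neg hti, if_neg htj]
            exact hF3 t (mem_erase.2 ⟨htj, mem_erase.2 ⟨hti, ht⟩⟩)

/-- choice of an end of every demand such that every vertex is chosen an even number of
times -/
theorem orient {V I : Type} [Fintype V] [DecidableEq V] [Fintype I] [DecidableEq I]
    (a b : I → V) (h : ∀ X : Finset V, (∀ i, a i ∈ X ↔ b i ∈ X) →
      Even (univ.filter (fun i => a i ∈ X)).card) :
    ∃ z : I → Bool, ∀ v, Even (univ.filter
      (fun i => (if z i then b i else a i) = v)).card := by
  classical
  let M : (I → ZMod 2) →ₗ[ZMod 2] (V → ZMod 2) :=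
    { toFun := fun z v => ∑ i, z i * ((if a i = v then 1 else 0) + (if b i = v then 1 else 0))
      map_add' := by
        intro z z'
        funext v
        simp only [Pi.add_apply, add_mul, sum_add_distrib]
      map_smul' := by
        intro r z
        funext v
        simp only [Pi.smul_apply, smul_eq_mul, RingHom.id_apply, mul_sum, mul_assoc] }
  let t : V → ZMod 2 := fun v => ∑ i, (if a i = v then 1 else 0)
  have hMt : t ∈ LinearMap.range M := by
    by_contra hn
    obtain ⟨f, hf, hker⟩ := Submodule.exists_le_ker_of_notMem hn
    let p : V → ZMod 2 := fun v => f (fun j => if v = j then 1 else 0)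
    have hfp : ∀ y : V → ZMod 2, f y = ∑ v, y v * p v := by
      intro y
      rw [LinearMap.pi_apply_eq_sum_univ f y]
      rfl
    have hz : ∀ z, f (M z) = 0 := fun z => by
      have : M z ∈ LinearMap.ker f := hker ⟨z, rfl⟩
      exact LinearMap.mem_ker.1 this
    have h2 : ∀ i, p (a i) + p (b i) = 0 := by
      intro i
      have := hz (Pi.single i 1)
      rw [hfp] at this
      have e1 : ∀ v, (M (Pi.single i 1)) v
          = (if a i = v then 1 else 0) + (if b i = v then 1 else 0) := by
        intro v
        show ∑ j, (Pi.single i (1 : ZMod 2) : I → ZMod 2) j *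
          ((if a j = v then 1 else 0) + (if b j = v then 1 else 0)) = _
        rw [sum_eq_single i]
        · rw [Pi.single_eq_same, one_mul]
        · intro j _ hj
          rw [Pi.single_eq_of_ne hj, zero_mul]
        · intro hh
          exact absurd (mem_univ i) hh
      simp only [e1, add_mul, ite_mul, one_mul, zero_mul, sum_add_distrib, sum_ite_eq,
        mem_univ, if_true] at this
      exact this
    have hft : f t = ∑ i, p (a i) := by
      rw [hfp]
      show ∑ v, (∑ i, (if a i = v then (1 : ZMod 2) else 0)) * p v = _
      simp only [sum_mul]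
      rw [sum_comm]
      refine sum_congr rfl fun i _ => ?_
      simp only [ite_mul, one_mul, zero_mul, sum_ite_eq, mem_univ, if_true]
    have hp : ∀ x : ZMod 2, x = 0 ∨ x = 1 := by decide
    have hX := h (univ.filter (fun v => p v = 1)) (by
      intro i
      simp only [mem_filter, mem_univ, true_and]
      have h3 := h2 i
      rcases hp (p (a i)) with h4 | h4 <;> rcases hp (p (b i)) with h5 | h5 <;>
        rw [h4, h5] at h3 ⊢ <;> revert h3 <;> decide)
    apply hf
    rw [hft]
    have e2 : ∀ i, p (a i) = if p (a i) = 1 then 1 else 0 := by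
      intro i
      rcases hp (p (a i)) with h4 | h4 <;> rw [h4] <;> decide
    rw [sum_congr rfl (fun i _ => e2 i), sum_boole]
    have e3 : (univ.filter (fun i => a i ∈ univ.filter (fun v => p v = 1)))
        = univ.filter (fun i => p (a i) = 1) := by
      ext i
      simp
    rw [e3] at hX
    exact (ZMod.natCast_eq_zero_iff_even).2 hX
  obtain ⟨z, hz⟩ := hMt
  refine ⟨fun i => decide (z i = 1), fun v => ?_⟩
  have hp : ∀ x : ZMod 2, x = 0 ∨ x = 1 := by decide
  have h1 : (∑ i, z i * ((if a i = v then 1 else 0) + (if b i = v then 1 else 0)) : ZMod 2)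
      = ∑ i, (if a i = v then 1 else 0) := congrFun hz v
  rw [← ZMod.natCast_eq_zero_iff_even, ← sum_boole]
  have h2 : ∀ i, ((if (if decide (z i = 1) then b i else a i) = v then 1 else 0 : ZMod 2))
      = (if a i = v then 1 else 0)
        + z i * ((if a i = v then 1 else 0) + (if b i = v then 1 else 0)) := by
    intro i
    rcases hp (z i) with h4 | h4
    · rw [h4]
      simp
    · rw [h4]
      by_cases h5 : a i = v <;> by_cases h6 : b i = v <;> simp [h5, h6] <;> decide
  rw [sum_congr rfl (fun i _ => h2 i), sum_add_distrib, h1]
  have h3 : ∀ x : ZMod 2, x + x = 0 := by decide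
  exact h3 _

/-- **sufficiency** -/
theorem ec {V E I : Type} [Fintype V] [DecidableEq V] [DecidableEq E] [Fintype I]
    [DecidableEq I] (G : Gr V E) (A : Finset E) (k : ℕ) (hI : Fintype.card I ≤ 2 * k)
    (hA : Ec G A (2 * k)) (a b : I → V)
    (h : ∀ X : Finset V, (∀ i, a i ∈ X ↔ b i ∈ X) →
      Even (univ.filter (fun i => a i ∈ X)).card) :
    ∃ F : I → Finset E, (∀ i, F i ⊆ A) ∧
      (∀ i j, i ≠ j → Disjoint (F i) (F j)) ∧ ∀ i, Co G (F i) (a i) (b i) := by
  obtain ⟨z, hz⟩ := orient a b h
  obtain ⟨F, h1, h2, h3⟩ := ec_aux G (fun i => if z i then b i else a i)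
    (fun i => if z i then a i else b i) k A univ (by rw [card_univ]; exact hI) hA hz
  refine ⟨F, fun i => h1 i (mem_univ i), fun i j => h2 i (mem_univ i) j (mem_univ j),
    fun i => ?_⟩
  have := h3 i (mem_univ i)
  by_cases hzi : z i = true
  · rw [if_pos hzi, if_pos hzi] at this
    exact co_symm this
  · rw [if_neg hzi, if_neg hzi] at this
    exact this

end Pool.Agent.H71.WF
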