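import Pool.Agent.H71.WE.All

/-!
# Half-integral weak linkage
-/

set_option autoImplicit false

namespace Pool.Agent.H71.WF

open Finset Pool.Agent.H71.WE

/-- every edge doubled -/
def dbl {V E : Type} (G : Gr V E) : Gr V (E × Bool) := ⟨fun e => G.s e.1, fun e => G.t e.1⟩

theorem cn_dbl {V E : Type} [Fintype V] [DecidableEq V] [Fintype E] [DecidableEq E]
    (G : Gr V E) (X : Finset V) : cn (dbl G) univ X = cn G univ X * 2 := by
  unfold cn
  have h4 : (univ : Finset (E × Bool)).filter (fun e => Cr (dbl G) X e)
      = (univ.filter (fun e => Cr G X e)) ×ˢ (univ : Finset Bool) := by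
    ext ⟨e, s⟩
    simp only [mem_filter, mem_univ, true_and, mem_product, and_true]
    rfl
  rw [h4, card_product]
  rfl

theorem card_dbl {I : Type} [Fintype I] [DecidableEq I] (P : I → Prop) [DecidablePred P] :
    ((univ : Finset (I × Bool)).filter (fun p => P p.1)).card = (univ.filter P).card * 2 := by
  have h6 : (univ : Finset (I × Bool)).filter (fun p => P p.1)
      = (univ.filter P) ×ˢ (univ : Finset Bool) := by
    ext ⟨e, s⟩
    simp only [mem_filter, mem_univ, true_and, mem_product, and_true]
  rw [h6, card_product]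
  rfl

/-- half-integral weak linkage: only cuts which separate terminals matter -/
theorem half {V E : Type} [Fintype V] [DecidableEq V] [Fintype E] [DecidableEq E]
    (G : Gr V E) (K : ℕ) (u v : Fin K → V)
    (hG : ∀ X : Finset V, (∃ i, u i ∈ X ∨ v i ∈ X) → (∃ i, u i ∉ X ∨ v i ∉ X) →
      K ≤ cn G univ X) :
    ∃ F : Fin K → Bool → Finset E, (∀ i s, Co G (F i s) (u i) (v i)) ∧
      ∀ x : E, (univ.filter (fun p : Fin K × Bool => x ∈ F p.1 p.2)).card ≤ 2 := by
  classical
  have htk : ∀ w, tk (fun p : Fin K × Bool => u p.1) (fun p => v p.1) univ w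
      = ((univ.filter (fun i => u i = w)).card + (univ.filter (fun i => v i = w)).card) * 2 := by
    intro w
    unfold tk
    rw [card_dbl (fun i => u i = w), card_dbl (fun i => v i = w)]
    ring
  have hodd : ∀ w, ¬ Odd (cn (dbl G) univ {w}
      + tk (fun p : Fin K × Bool => u p.1) (fun p => v p.1) univ w) := by
    intro w
    rw [cn_dbl, htk, Nat.not_odd_iff_even]
    exact ⟨cn G univ {w}
      + ((univ.filter (fun i => u i = w)).card + (univ.filter (fun i => v i = w)).card), by ring⟩
  have hsp : ∀ w, (tk (fun p : Fin K × Bool => u p.1) (fun p => v p.1) univ w ≠ 0 ∨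
      Odd (cn (dbl G) univ {w} + tk (fun p : Fin K × Bool => u p.1) (fun p => v p.1) univ w)) →
      ∃ i, u i = w ∨ v i = w := by
    intro w hw
    rcases hw with hw | hw
    · rw [htk] at hw
      by_contra hno
      push Not at hno
      apply hw
      have e1 : (univ.filter (fun i => u i = w)).card = 0 := by
        rw [card_eq_zero, filter_eq_empty_iff]
        exact fun i _ => (hno i).1
      have e2 : (univ.filter (fun i => v i = w)).card = 0 := by
        rw [card_eq_zero, filter_eq_empty_iff]
        exact fun i _ => (hno i).2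
      omega
    · exact absurd hw (hodd w)
  have hmain := All.tauu V (E × Bool) (Fin K × Bool) (dbl G) univ (fun p => u p.1)
    (fun p => v p.1) univ K (by
      rintro X ⟨a, ha, ha'⟩ ⟨b, hb, hb'⟩
      obtain ⟨i, hi⟩ := hsp a ha'
      obtain ⟨j, hj⟩ := hsp b hb'
      have h1 := hG X ⟨i, by
        rcases hi with h | h
        · exact Or.inl (h ▸ ha)
        · exact Or.inr (h ▸ ha)⟩ ⟨j, by
        rcases hj with h | h
        · exact Or.inl (h ▸ hb)
        · exact Or.inr (h ▸ hb)⟩
      rw [cn_dbl]
      omega) (by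
      have e1 : (univ.filter (fun w : V => Odd (cn (dbl G) univ {w}
          + tk (fun p : Fin K × Bool => u p.1) (fun p => v p.1) univ w))).card = 0 := by
        rw [card_eq_zero, filter_eq_empty_iff]
        exact fun w _ => hodd w
      rw [e1, card_univ, Fintype.card_prod, Fintype.card_fin, Fintype.card_bool]
      omega)
  obtain ⟨F, _, hd, hc⟩ := hmain
  refine ⟨fun i s => (F (i, s)).image Prod.fst, ?_, ?_⟩
  · intro i s X hX hX'
    obtain ⟨e, he, hcr⟩ := hc (i, s) (mem_univ _) X hX hX'
    exact ⟨e.1, mem_image.2 ⟨e, he, rfl⟩, hcr⟩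
  · intro x
    show (univ.filter (fun p : Fin K × Bool => x ∈ (F (p.1, p.2)).image Prod.fst)).card ≤ 2
    have h7 : ∀ b : Bool, (univ.filter (fun p : Fin K × Bool => (x, b) ∈ F p)).card ≤ 1 := by
      intro b
      rw [card_le_one]
      intro p hp q hq
      by_contra hne
      exact disjoint_left.1 (hd p (mem_univ _) q (mem_univ _) hne) (mem_filter.1 hp).2
        (mem_filter.1 hq).2
    have h8 : univ.filter (fun p : Fin K × Bool => x ∈ (F (p.1, p.2)).image Prod.fst) ⊆
        univ.filter (fun p : Fin K × Bool => (x, true) ∈ F p) ∪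
        univ.filter (fun p : Fin K × Bool => (x, false) ∈ F p) := by
      intro p hp
      obtain ⟨⟨y, b⟩, hy, hyx⟩ := mem_image.1 (mem_filter.1 hp).2
      have h9 : y = x := hyx
      subst h9
      cases b
      · exact mem_union_right _ (mem_filter.2 ⟨mem_univ _, hy⟩)
      · exact mem_union_left _ (mem_filter.2 ⟨mem_univ _, hy⟩)
    have h10 := (card_le_card h8).trans (card_union_le _ _)
    have h11 := h7 true
    have h12 := h7 false
    omega

end Pool.Agent.H71.WF
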