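import Pool.Agent.H71.WE.Defs

/-!
# Four hubs: demand graphs which are not always linked
-/

set_option autoImplicit false

namespace Pool.Agent.H71.WF

open Finset Pool.Agent.H71.WE

/-- the hub of a terminal -/
def hub {W : Type} [DecidableEq W] (S : Finset W) (f : W → Bool) (u : W) : Fin 4 :=
  if u ∈ S then (if f u then 0 else 2) else (if f u then 1 else 3)

/-- four hubs in a cycle of multiplicity `k`, every terminal joined to its hub by `2 * k`
edges -/
def HG {W : Type} (k : ℕ) (h : W → Fin 4) :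
    Gr (W ⊕ Fin 4) ((W × Fin (2 * k)) ⊕ (Fin 4 × Fin k)) :=
  ⟨Sum.elim (fun p => Sum.inl p.1) (fun p => Sum.inr p.1),
   Sum.elim (fun p => Sum.inr (h p.1)) (fun p => Sum.inr (p.1 + 1))⟩

theorem two_cross : ∀ J : Finset (Fin 4), J.Nonempty → J ≠ univ →
    ∃ j1 j2 : Fin 4, j1 ≠ j2 ∧ ((j1 ∈ J ∧ j1 + 1 ∉ J) ∨ (j1 ∉ J ∧ j1 + 1 ∈ J)) ∧
      ((j2 ∈ J ∧ j2 + 1 ∉ J) ∨ (j2 ∉ J ∧ j2 + 1 ∈ J)) := by
  decide

theorem hg_ec {W : Type} [Fintype W] [DecidableEq W] (k : ℕ) (h : W → Fin 4) :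
    Ec (HG k h) univ (2 * k) := by
  intro X hX hX'
  unfold cn
  by_cases hu : ∃ u : W, ¬ ((Sum.inl u : W ⊕ Fin 4) ∈ X ↔ (Sum.inr (h u) : W ⊕ Fin 4) ∈ X)
  · obtain ⟨u, hu⟩ := hu
    have hc : ((({u} : Finset W) ×ˢ (univ : Finset (Fin (2 * k)))).map
        (Function.Embedding.inl (β := Fin 4 × Fin k))).card = 2 * k := by
      rw [card_map, card_product, card_singleton, card_univ, Fintype.card_fin, one_mul]
    refine hc.symm.le.trans (card_le_card ?_)
    intro e he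
    rw [mem_map] at he
    obtain ⟨p, hp, rfl⟩ := he
    rw [mem_product, mem_singleton] at hp
    rw [mem_filter]
    refine ⟨mem_univ _, ?_⟩
    show ((Sum.inl p.1 : W ⊕ Fin 4) ∈ X ∧ (Sum.inr (h p.1) : W ⊕ Fin 4) ∉ X) ∨
      ((Sum.inl p.1 : W ⊕ Fin 4) ∉ X ∧ (Sum.inr (h p.1) : W ⊕ Fin 4) ∈ X)
    rw [hp.1]
    tauto
  · push Not at hu
    set J : Finset (Fin 4) := univ.filter (fun j => (Sum.inr j : W ⊕ Fin 4) ∈ X) with hJ
    have hJm : ∀ j, j ∈ J ↔ (Sum.inr j : W ⊕ Fin 4) ∈ X := by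
      intro j
      simp [hJ]
    have h1 : J.Nonempty := by
      obtain ⟨x, hx⟩ := hX
      rcases x with u | j
      · exact ⟨h u, (hJm _).2 ((hu u).1 hx)⟩
      · exact ⟨j, (hJm _).2 hx⟩
    have h2 : J ≠ univ := by
      intro h2
      apply hX'
      ext x
      simp only [mem_univ, iff_true]
      rcases x with u | j
      · exact (hu u).2 ((hJm _).1 (h2 ▸ mem_univ _))
      · exact (hJm _).1 (h2 ▸ mem_univ _)
    obtain ⟨j1, j2, h3, h4, h5⟩ := two_cross J h1 h2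
    have hc : ((({j1, j2} : Finset (Fin 4)) ×ˢ (univ : Finset (Fin k))).map
        (Function.Embedding.inr (α := W × Fin (2 * k)))).card = 2 * k := by
      rw [card_map, card_product, card_pair h3, card_univ, Fintype.card_fin]
    refine hc.symm.le.trans (card_le_card ?_)
    intro e he
    rw [mem_map] at he
    obtain ⟨p, hp, rfl⟩ := he
    rw [mem_product, mem_insert, mem_singleton] at hp
    rw [mem_filter]
    refine ⟨mem_univ _, ?_⟩
    show ((Sum.inr p.1 : W ⊕ Fin 4) ∈ X ∧ (Sum.inr (p.1 + 1) : W ⊕ Fin 4) ∉ X) ∨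
      ((Sum.inr p.1 : W ⊕ Fin 4) ∉ X ∧ (Sum.inr (p.1 + 1) : W ⊕ Fin 4) ∈ X)
    rw [← hJm, ← hJm]
    rcases hp.1 with hp1 | hp1 <;> rw [hp1]
    · exact h4
    · exact h5

/-- a demand between different sides of a set of hubs uses a hub edge leaving the set -/
theorem hg_use {W : Type} [Fintype W] [DecidableEq W] (k : ℕ) (h : W → Fin 4)
    (F : Finset ((W × Fin (2 * k)) ⊕ (Fin 4 × Fin k))) (u v : W)
    (hC : Co (HG k h) F (Sum.inl u) (Sum.inl v)) (J : Finset (Fin 4)) (hu : h u ∈ J)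
    (hv : h v ∉ J) : ∃ j : Fin 4, ((j ∈ J ∧ j + 1 ∉ J) ∨ (j ∉ J ∧ j + 1 ∈ J)) ∧
      ∃ c : Fin k, Sum.inr (j, c) ∈ F := by
  obtain ⟨e, he, hc⟩ := hC (univ.filter (fun x : W ⊕ Fin 4 => Sum.elim h id x ∈ J))
    (by simpa using hu) (by simpa using hv)
  rcases e with p | p
  · exfalso
    simp [Cr, HG] at hc
  · refine ⟨p.1, ?_, p.2, he⟩
    simpa [Cr, HG] using hc

theorem cross01 : ∀ j : Fin 4, ((j ∈ ({0, 1} : Finset (Fin 4)) ∧ j + 1 ∉ ({0, 1} : Finset (Fin 4))) ∨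
    (j ∉ ({0, 1} : Finset (Fin 4)) ∧ j + 1 ∈ ({0, 1} : Finset (Fin 4)))) → j = 1 ∨ j = 3 := by
  decide

theorem cross12 : ∀ j : Fin 4, ((j ∈ ({1, 2} : Finset (Fin 4)) ∧ j + 1 ∉ ({1, 2} : Finset (Fin 4))) ∨
    (j ∉ ({1, 2} : Finset (Fin 4)) ∧ j + 1 ∈ ({1, 2} : Finset (Fin 4)))) → j = 0 ∨ j = 2 := by
  decide

theorem cross0 : ∀ j : Fin 4, ((j ∈ ({0} : Finset (Fin 4)) ∧ j + 1 ∉ ({0} : Finset (Fin 4))) ∨
    (j ∉ ({0} : Finset (Fin 4)) ∧ j + 1 ∈ ({0} : Finset (Fin 4)))) → j = 0 ∨ j = 3 := by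
  decide

theorem cross1 : ∀ j : Fin 4, ((j ∈ ({1} : Finset (Fin 4)) ∧ j + 1 ∉ ({1} : Finset (Fin 4))) ∨
    (j ∉ ({1} : Finset (Fin 4)) ∧ j + 1 ∈ ({1} : Finset (Fin 4)))) → j = 0 ∨ j = 1 := by
  decide

theorem cross2 : ∀ j : Fin 4, ((j ∈ ({2} : Finset (Fin 4)) ∧ j + 1 ∉ ({2} : Finset (Fin 4))) ∨
    (j ∉ ({2} : Finset (Fin 4)) ∧ j + 1 ∈ ({2} : Finset (Fin 4)))) → j = 1 ∨ j = 2 := by
  decide

theorem cross3 : ∀ j : Fin 4, ((j ∈ ({3} : Finset (Fin 4)) ∧ j + 1 ∉ ({3} : Finset (Fin 4))) ∨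
    (j ∉ ({3} : Finset (Fin 4)) ∧ j + 1 ∈ ({3} : Finset (Fin 4)))) → j = 2 ∨ j = 3 := by
  decide

theorem prop_in {p0 p1 p2 p3 : Prop} (h0 : p0 ∨ p3) (h2 : p1 ∨ p2) (h13 : ¬ (p1 ∧ p3))
    (h02 : ¬ (p0 ∧ p2)) : p0 ↔ p1 := by tauto

theorem prop_out {p0 p1 p2 p3 : Prop} (h0 : p0 ∨ p1) (h2 : p2 ∨ p3) (h13 : ¬ (p1 ∧ p3))
    (h02 : ¬ (p0 ∧ p2)) : p0 ↔ ¬ p1 := by tauto

/-- the counting step -/
theorem count (k : ℕ) (p t0 t1 : Fin (2 * k) → Prop) [DecidablePred p] [DecidablePred t0]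
    [DecidablePred t1] (h0 : (univ.filter t0).card = k) (h1 : (univ.filter t1).card = k)
    (hin : ∀ i, p i → (t0 i ↔ t1 i)) (hout : ∀ i, ¬ p i → (t0 i ↔ ¬ t1 i)) :
    Even (univ.filter p).card := by
  have c0 : (univ.filter t0).card
      = (univ.filter (fun i => p i ∧ t0 i)).card
        + (univ.filter (fun i => ¬ p i ∧ t0 i)).card := by
    rw [← card_filter_add_card_filter_not (s := univ.filter t0) p, filter_filter, filter_filter]
    congr 2
    · ext i
      simp only [mem_filter, mem_univ, true_and]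
      tauto
    · ext i
      simp only [mem_filter, mem_univ, true_and]
      tauto
  have c1 : (univ.filter t1).card
      = (univ.filter (fun i => p i ∧ t0 i)).card
        + (univ.filter (fun i => ¬ p i ∧ ¬ t0 i)).card := by
    rw [← card_filter_add_card_filter_not (s := univ.filter t1) p, filter_filter, filter_filter]
    congr 2
    · ext i
      simp only [mem_filter, mem_univ, true_and]
      have := hin i
      tauto
    · ext i
      simp only [mem_filter, mem_univ, true_and]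
      have := hout i
      tauto
  have c2 : (univ.filter (fun i => ¬ p i)).card
      = (univ.filter (fun i => ¬ p i ∧ t0 i)).card
        + (univ.filter (fun i => ¬ p i ∧ ¬ t0 i)).card := by
    rw [← card_filter_add_card_filter_not (s := univ.filter (fun i => ¬ p i)) t0,
      filter_filter, filter_filter]
  have c3 : (univ : Finset (Fin (2 * k))).card = (univ.filter p).card
      + (univ.filter (fun i => ¬ p i)).card :=
    (card_filter_add_card_filter_not (s := (univ : Finset (Fin (2 * k)))) p).symm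
  rw [card_univ, Fintype.card_fin] at c3
  rw [Nat.even_iff]
  omega

theorem nec {W : Type} [Fintype W] [DecidableEq W] (k : ℕ) (S : Finset W) (f : W → Bool)
    (a b : Fin (2 * k) → W) (hf : ∀ i, f (a i) ≠ f (b i)) (hS : ∀ i, a i ∈ S ↔ b i ∈ S)
    (hodd : ¬ Even (univ.filter (fun i => a i ∈ S)).card)
    (F : Fin (2 * k) → Finset ((W × Fin (2 * k)) ⊕ (Fin 4 × Fin k)))
    (hF : ∀ i j, i ≠ j → Disjoint (F i) (F j))
    (hC : ∀ i, Co (HG k (hub S f)) (F i) (Sum.inl (a i)) (Sum.inl (b i))) : False := by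
  classical
  have hC' : ∀ i, Co (HG k (hub S f)) (F i) (Sum.inl (b i)) (Sum.inl (a i)) := by
    intro i X hX hX'
    obtain ⟨e, he, hc⟩ := hC i Xᶜ (by simpa using hX') (by simpa using hX)
    refine ⟨e, he, ?_⟩
    unfold Cr at hc ⊢
    simp only [mem_compl, not_not] at hc
    tauto
  let T : Fin 4 → Fin (2 * k) → Prop := fun j i => ∃ c : Fin k, Sum.inr (j, c) ∈ F i
  have huse : ∀ i (J : Finset (Fin 4)),
      ¬ (hub S f (a i) ∈ J ↔ hub S f (b i) ∈ J) →
      ∃ j : Fin 4, ((j ∈ J ∧ j + 1 ∉ J) ∨ (j ∉ J ∧ j + 1 ∈ J)) ∧ T j i := by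
    intro i J hJ
    by_cases h1 : hub S f (a i) ∈ J
    · exact hg_use k _ (F i) (a i) (b i) (hC i) J h1 (fun h2 => hJ ⟨fun _ => h2, fun _ => h1⟩)
    · exact hg_use k _ (F i) (b i) (a i) (hC' i) J (by tauto) h1
  have hN : ∀ j, (univ.filter (fun i => T j i)).card ≤ k := by
    intro j
    have h1 : ∀ i ∈ univ.filter (fun i => T j i), ∃ c : Fin k, Sum.inr (j, c) ∈ F i :=
      fun i hi => (mem_filter.1 hi).2
    have h0 : (univ.filter (fun i => T j i)) = ∅ ∨ Nonempty (Fin k) := by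
      rcases (univ.filter (fun i => T j i)).eq_empty_or_nonempty with h0 | ⟨i, hi⟩
      · exact Or.inl h0
      · obtain ⟨c, _⟩ := h1 i hi
        exact Or.inr ⟨c⟩
    rcases h0 with h0 | h0
    · rw [h0, card_empty]
      exact Nat.zero_le _
    choose! c hc using h1
    have h2 : (univ.filter (fun i => T j i)).card ≤ (univ : Finset (Fin k)).card := by
      apply card_le_card_of_injOn c (fun _ _ => mem_coe.2 (mem_univ _))
      intro i hi i' hi' hii
      by_contra hne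
      have h3 := hc i hi
      have h4 := hc i' hi'
      rw [← hii] at h4
      exact disjoint_left.1 (hF i i' hne) h3 h4
    rwa [card_univ, Fintype.card_fin] at h2
  have hub4 : ∀ i, (a i ∈ S ∧ (hub S f (a i) = 0 ∧ hub S f (b i) = 2 ∨
      hub S f (a i) = 2 ∧ hub S f (b i) = 0)) ∨
      (a i ∉ S ∧ (hub S f (a i) = 1 ∧ hub S f (b i) = 3 ∨
      hub S f (a i) = 3 ∧ hub S f (b i) = 1)) := by
    intro i
    have h1 := hf i
    have h2 := hS i
    unfold hub
    by_cases h3 : a i ∈ S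
    · have h4 := h2.1 h3
      rw [if_pos h3, if_pos h4]
      rcases hfa : f (a i) <;> rcases hfb : f (b i) <;> simp_all
    · have h4 : b i ∉ S := fun h => h3 (h2.2 h)
      rw [if_neg h3, if_neg h4]
      rcases hfa : f (a i) <;> rcases hfb : f (b i) <;> simp_all
  have h13 : ∀ i, T 1 i ∨ T 3 i := by
    intro i
    obtain ⟨j, hj, hT⟩ := huse i {0, 1} (by
      rcases hub4 i with ⟨_, ⟨h1, h2⟩ | ⟨h1, h2⟩⟩ | ⟨_, ⟨h1, h2⟩ | ⟨h1, h2⟩⟩ <;>
        rw [h1, h2] <;> decide)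
    rcases cross01 j hj with rfl | rfl
    · exact Or.inl hT
    · exact Or.inr hT
  have h02 : ∀ i, T 0 i ∨ T 2 i := by
    intro i
    obtain ⟨j, hj, hT⟩ := huse i {1, 2} (by
      rcases hub4 i with ⟨_, ⟨h1, h2⟩ | ⟨h1, h2⟩⟩ | ⟨_, ⟨h1, h2⟩ | ⟨h1, h2⟩⟩ <;>
        rw [h1, h2] <;> decide)
    rcases cross12 j hj with rfl | rfl
    · exact Or.inl hT
    · exact Or.inr hT
  have hone : ∀ j j' : Fin 4, (∀ i, T j i ∨ T j' i) →
      (univ.filter (fun i => T j i)).card = k ∧ ∀ i, ¬ (T j i ∧ T j' i) := by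
    intro j j' hj
    have h1 : (univ.filter (fun i => T j i)) ∪ (univ.filter (fun i => T j' i)) = univ := by
      ext i
      simp only [mem_union, mem_filter, mem_univ, true_and, iff_true]
      exact hj i
    have h2 := card_union_add_card_inter (univ.filter (fun i => T j i))
      (univ.filter (fun i => T j' i))
    rw [h1, card_univ, Fintype.card_fin] at h2
    have h3 := hN j
    have h4 := hN j'
    have h5 : ((univ.filter (fun i => T j i)) ∩ (univ.filter (fun i => T j' i))).card = 0 := by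
      omega
    refine ⟨by omega, fun i hi => ?_⟩
    rw [card_eq_zero] at h5
    have : i ∈ (univ.filter (fun i => T j i)) ∩ (univ.filter (fun i => T j' i)) := by
      rw [mem_inter, mem_filter, mem_filter]
      exact ⟨⟨mem_univ _, hi.1⟩, mem_univ _, hi.2⟩
    rw [h5] at this
    exact absurd this (notMem_empty _)
  obtain ⟨n1, x13⟩ := hone 1 3 h13
  obtain ⟨n0, x02⟩ := hone 0 2 h02
  have hin : ∀ i, a i ∈ S → (T 0 i ↔ T 1 i) := by
    intro i hi
    have h0 : T 0 i ∨ T 3 i := by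
      obtain ⟨j, hj, hT⟩ := huse i {0} (by
        rcases hub4 i with ⟨_, ⟨h1, h2⟩ | ⟨h1, h2⟩⟩ | ⟨h, _⟩
        · rw [h1, h2]; decide
        · rw [h1, h2]; decide
        · exact absurd hi h)
      rcases cross0 j hj with rfl | rfl
      · exact Or.inl hT
      · exact Or.inr hT
    have h2 : T 1 i ∨ T 2 i := by
      obtain ⟨j, hj, hT⟩ := huse i {2} (by
        rcases hub4 i with ⟨_, ⟨h1, h2⟩ | ⟨h1, h2⟩⟩ | ⟨h, _⟩
        · rw [h1, h2]; decide
        · rw [h1, h2]; decide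
        · exact absurd hi h)
      rcases cross2 j hj with rfl | rfl
      · exact Or.inl hT
      · exact Or.inr hT
    exact prop_in h0 h2 (x13 i) (x02 i)
  have hout : ∀ i, a i ∉ S → (T 0 i ↔ ¬ T 1 i) := by
    intro i hi
    have h0 : T 0 i ∨ T 1 i := by
      obtain ⟨j, hj, hT⟩ := huse i {1} (by
        rcases hub4 i with ⟨h, _⟩ | ⟨_, ⟨h1, h2⟩ | ⟨h1, h2⟩⟩
        · exact absurd h hi
        · rw [h1, h2]; decide
        · rw [h1, h2]; decide)
      rcases cross1 j hj with rfl | rfl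
      · exact Or.inl hT
      · exact Or.inr hT
    have h2 : T 2 i ∨ T 3 i := by
      obtain ⟨j, hj, hT⟩ := huse i {3} (by
        rcases hub4 i with ⟨h, _⟩ | ⟨_, ⟨h1, h2⟩ | ⟨h1, h2⟩⟩
        · exact absurd h hi
        · rw [h1, h2]; decide
        · rw [h1, h2]; decide)
      rcases cross3 j hj with rfl | rfl
      · exact Or.inl hT
      · exact Or.inr hT
    exact prop_out h0 h2 (x13 i) (x02 i)
  exact hodd (count k (fun i => a i ∈ S) (fun i => T 0 i) (fun i => T 1 i) n0 n1 hin hout)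

end Pool.Agent.H71.WF
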